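import Pool.Agent.Run7.h608.BC.Iface

set_option autoImplicit false
open MeasureTheory Set Filter Topology
open scoped ENNReal ContDiff

namespace Run7.h83.BC

open Run7.h608.BC

theorem re_tendsto {β x c : ℝ} {g : ℝ → ℂ} (him : ∀ t, (T g t).im = 0)
    (hg : Tendsto (fun n : ℕ => L β x n (T g)) atTop (𝓝 ((c : ℂ) * g 0))) :
    Tendsto (fun n : ℕ => LR β x n (fun t => (T g t).re)) atTop (𝓝 (c * (g 0).re)) := by
  have h1 : ∀ n, L β x n (T g) = ((LR β x n (fun t => (T g t).re) : ℝ) : ℂ) := by
    intro n
    rw [← L_ofReal]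
    congr 1
    funext t
    apply Complex.ext
    · simp
    · simp [him t]
  have h2 := (Complex.continuous_re.tendsto _).comp hg
  have h3 : ((c:ℂ) * g 0).re = c * (g 0).re := by simp
  rw [h3] at h2
  refine h2.congr (fun n => ?_)
  simp only [Function.comp_apply]
  rw [h1, Complex.ofReal_re]

theorem ind_in {p q t : ℝ} (h : t ∈ Icc p q) : ind p q t = 1 := by
  unfold ind
  rw [indicator_of_mem h]

theorem ind_out {p q t : ℝ} (h : t ∉ Icc p q) : ind p q t = 0 := by
  unfold ind
  rw [indicator_of_notMem h]

theorem t_SAN : S_KER → S_TAI → S_SAN := by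
  intro hK hT β x C c hβ hc hG hL p q hpq
  have hC := hG.1
  rw [tendsto_order]
  constructor
  · intro a ha
    have hd : 0 < c * (q - p) - a := by linarith
    set η : ℝ := min (min (1/2) ((q - p)/4)) ((c * (q - p) - a) / (2 * (3 * c + 8 * C + 1))) with hη
    have hη0 : 0 < η := lt_min (lt_min (by norm_num) (by linarith)) (div_pos hd (by positivity))
    have h1 : η ≤ 1/2 := (min_le_left _ _).trans (min_le_left _ _)
    have h2 : η ≤ (q-p)/4 := (min_le_left _ _).trans (min_le_right _ _)
    have h3 : η * (2 * (3*c+8*C+1)) ≤ c*(q-p) - a :=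
      (le_div_iff₀ (by positivity)).1 (min_le_right _ _)
    obtain ⟨g, hg, hg1, hg2, hg3, hg4⟩ := hK (p+η) (q-η) η (by linarith) hη0 (by linarith)
    have ht := re_tendsto (fun t => (hg1 t).1) (hL g hg)
    have hre : q - p - 3 * η ≤ (g 0).re := by
      have := (Complex.abs_re_le_norm (g 0 - ((q - η - (p + η) : ℝ) : ℂ))).trans hg3
      rw [Complex.sub_re, Complex.ofReal_re, abs_le] at this
      linarith [this.1]
    have hlim : a + 8 * C * η < c * (g 0).re := by
      have e1 : c * (q - p - 3 * η) ≤ c * (g 0).re := mul_le_mul_of_nonneg_left hre hc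
      have e2 : 0 < η * (3*c+8*C+2) := by positivity
      nlinarith
    filter_upwards [ht.eventually_const_lt hlim] with n hn
    have hle : LR β x n (fun t => (T g t).re) ≤
        LR β x n (fun t => ind p q t + η * (1 / (1 + (t/1)^2))) := by
      apply LR_mono β x hβ
      intro t
      by_cases ht : t ∈ Icc p q
      · rw [ind_in ht]
        have e1 := (hg1 t).2.2
        have e2 : 0 ≤ η * (1 / (1 + (t/1)^2)) := by positivity
        linarith
      · rw [ind_out ht, zero_add]
        have h5 := hg4 t (by rwa [show p + η - η = p by ring, show q - η + η = q by ring])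
        rw [div_one, mul_one_div]
        exact h5
    rw [LR_add β x n (ind p q) (fun t => η * (1 / (1 + (t/1)^2))),
      LR_smul β x n η (fun t => 1 / (1 + (t/1)^2))] at hle
    have h6 := hT β x C hβ hG n 1 le_rfl
    have h7 : η * LR β x n (fun t => 1 / (1 + (t/1)^2)) ≤ η * (8 * C * 1) :=
      mul_le_mul_of_nonneg_left h6 hη0.le
    linarith
  · intro b hb
    have hb0 : 0 < b := lt_of_le_of_lt (mul_nonneg hc (by linarith)) hb
    set η : ℝ := min (1/2) ((b - c * (q-p)) / (2 * (c + b + 1))) with hη
    have hη0 : 0 < η := lt_min (by norm_num) (div_pos (by linarith) (by positivity))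
    have h1 : η ≤ 1/2 := min_le_left _ _
    have h3 : η * (2 * (c+b+1)) ≤ b - c*(q-p) := (le_div_iff₀ (by positivity)).1 (min_le_right _ _)
    obtain ⟨g, hg, hg1, hg2, hg3, hg4⟩ := hK p q η hpq hη0 (by linarith)
    have ht := re_tendsto (fun t => (hg1 t).1) (hL g hg)
    have hre : (g 0).re ≤ q - p + η := by
      have := (Complex.abs_re_le_norm (g 0 - ((q - p : ℝ) : ℂ))).trans hg3
      rw [Complex.sub_re, Complex.ofReal_re, abs_le] at this
      linarith [this.2]
    have hlim : c * (g 0).re < b * (1 - η) := by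
      have e1 : c * (g 0).re ≤ c * (q - p + η) := mul_le_mul_of_nonneg_left hre hc
      have e2 : 0 < η * (c + b + 2) := by positivity
      nlinarith
    filter_upwards [ht.eventually_lt_const hlim] with n hn
    have hle : LR β x n (fun t => (1 - η) * ind p q t) ≤ LR β x n (fun t => (T g t).re) := by
      apply LR_mono β x hβ
      intro t
      by_cases ht : t ∈ Icc p q
      · show (1 - η) * ind p q t ≤ _
        rw [ind_in ht, mul_one]
        exact hg2 t ht
      · show (1 - η) * ind p q t ≤ _
        rw [ind_out ht, mul_zero]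
        exact (hg1 t).2.1
    rw [LR_smul β x n (1 - η) (ind p q)] at hle
    have h8 : (1 - η) * LR β x n (ind p q) < (1 - η) * b := by linarith
    exact lt_of_mul_lt_mul_left h8 (by linarith)

end Run7.h83.BC
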